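import Pool.Agent.TH866.Pair

set_option autoImplicit false

open Polynomial MeasureTheory
open scoped ENNReal

namespace Pool.Agent.Results.MP_c11b14_lc.PencilsOfPairs

/-- The first member of the pencil: `f_t = ((1 - t) f + (1 + t) g) / 2`. -/
noncomputable def fst (f g : ℝ[X]) (t : ℝ) : ℝ[X] := C ((1 - t) / 2) * f + C ((1 + t) / 2) * g

/-- The second member of the pencil: `g_t = ((1 + t) f + (1 - t) g) / 2`. -/
noncomputable def snd (f g : ℝ[X]) (t : ℝ) : ℝ[X] := C ((1 + t) / 2) * f + C ((1 - t) / 2) * g

/-- The number of distinct real roots (`0` for the zero polynomial). -/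
noncomputable def realRoots (h : ℝ[X]) : ℕ := h.roots.toFinset.card

/-- The exponent `0` and the exponents of the monomials of `f` and of `g`; at most `2 s + 1` numbers
if `f` and `g` are `s`-sparse. -/
def exponents (f g : ℝ[X]) : Finset ℕ := insert 0 (f.support ∪ g.support)

/-- **The linear bound on average in every pencil.** Through every pair `(f, g)` passes the pencil of
the pairs `(f_t, g_t)` in the span of `f` and `g`, with `f_t g_t + 1 = f g + 1` for `t = ± 1`. On average
over `t` with respect to the Cauchy distribution `dt / (π (1 + t ^ 2))`, the polynomial `f_t g_t + 1` has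
at most `10 m` distinct real roots, where `m` is the number of exponents. -/
theorem result (f g : ℝ[X]) : fst f g 1 * snd f g 1 + 1 = f * g + 1 ∧
    ∃ F : ℝ → ℝ≥0∞, Measurable F ∧
      (∀ t : ℝ, (realRoots (fst f g t * snd f g t + 1) : ℝ≥0∞) ≤ F t) ∧
      ∫⁻ t : ℝ, F t * ENNReal.ofReal ((Real.pi * (1 + t ^ 2))⁻¹) ≤
        10 * ((exponents f g).card : ℝ≥0∞) := by
  classical
  constructor
  · rw [fst, snd]
    norm_num
    ring
  · obtain ⟨F, h1, h2, h3⟩ := Pool.Agent.TH866.Pair.pencil f g (exponents f g)
      (Finset.mem_insert_self _ _)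
      (Finset.subset_union_left.trans (Finset.subset_insert _ _))
      (Finset.subset_union_right.trans (Finset.subset_insert _ _))
    exact ⟨F, h1, h2, h3⟩

end Pool.Agent.Results.MP_c11b14_lc.PencilsOfPairs
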