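import Pool.Agent.TH866.Pair

set_option autoImplicit false

open Polynomial

namespace Pool.Agent.Results.MP_c11b14_lc.RobustSignChanges

/-- **Robust sign changes of `f g + 1`.** Let `f` and `g` be real polynomials with at most `s` monomials
each, `0 < δ ≤ 1`, and let `x_0 < x_1 < ... < x_n` be real numbers such that `f g + 1 ≤ 0` at `x_j` for odd
`j`, and `f g + 1 ≥ δ`, `|f| ≤ 2 ^ L`, `|g| ≤ 2 ^ L` at `x_j` for even `j`. Then
`n ≤ 604 (2 L + 1) (2 s + 1) / δ`. -/
theorem result (s : ℕ) (f g : ℝ[X]) (hf : f.support.card ≤ s) (hg : g.support.card ≤ s)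
    (L : ℕ) (δ : ℝ) (hδ : 0 < δ) (hδ1 : δ ≤ 1) (x : ℕ → ℝ) (hx : StrictMono x) (n : ℕ)
    (he : ∀ j ≤ n, Even j → |f.eval (x j)| ≤ 2 ^ L ∧ |g.eval (x j)| ≤ 2 ^ L ∧
      δ ≤ (f * g + 1).eval (x j))
    (ho : ∀ j ≤ n, Odd j → (f * g + 1).eval (x j) ≤ 0) :
    (n : ℝ) ≤ 604 * (2 * L + 1) * (2 * s + 1) / δ := by
  classical
  simp only [eval_add, eval_mul, eval_one] at he ho
  have h1 := Pool.Agent.TH866.Pair.robust f g (insert 0 (f.support ∪ g.support))
    (Finset.mem_insert_self _ _)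
    (Finset.subset_union_left.trans (Finset.subset_insert _ _))
    (Finset.subset_union_right.trans (Finset.subset_insert _ _)) L δ hδ hδ1 x hx n he ho
  have h2 : (insert 0 (f.support ∪ g.support)).card ≤ 2 * s + 1 := by
    have h3 := Finset.card_insert_le 0 (f.support ∪ g.support)
    have h4 := Finset.card_union_le f.support g.support
    omega
  have h3 : ((insert 0 (f.support ∪ g.support)).card : ℝ) ≤ 2 * s + 1 := by exact_mod_cast h2
  refine h1.trans ?_
  gcongr

end Pool.Agent.Results.MP_c11b14_lc.RobustSignChanges
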